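import Mathlib

/-! Existence of ergodic invariant measures on closed invariant subsets of the Cantor space,
for actions of groups with Foelner sets. -/

set_option autoImplicit false

open MeasureTheory Set Filter Topology TopologicalSpace

namespace Pool.Agent.H159Z.Bauer

abbrev C := ℕ → Bool

lemma cont_real {U : Set C} (hU : IsClopen U) :
    Continuous fun μ : ProbabilityMeasure C => (μ : Measure C).real U := by
  rw [continuous_iff_continuousAt]
  intro μ
  have h := ProbabilityMeasure.tendsto_measure_of_isClopen_of_tendsto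
    (μs := fun ν : ProbabilityMeasure C => ν) (L := 𝓝 μ) tendsto_id hU
  have h2 := (NNReal.continuous_coe.tendsto _).comp h
  simpa [Function.comp_def, ContinuousAt] using h2

lemma ext_clopen {μ ν : Measure C} [IsFiniteMeasure μ] [IsFiniteMeasure ν]
    (h : ∀ U, IsClopen U → μ.real U = ν.real U) : μ = ν := by
  have h' : ∀ U, IsClopen U → μ U = ν U := fun U hU =>
    (measureReal_eq_measureReal_iff (measure_ne_top _ _) (measure_ne_top _ _)).1 (h U hU)
  refine ext_of_generate_finite {s : Set C | IsClopen s} ?_ ?_ (fun s hs => h' s hs)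
    (h' _ isClopen_univ)
  · rw [BorelSpace.measurable_eq (α := C)]
    exact isTopologicalBasis_isClopen.borel_eq_generateFrom
  · intro s hs t ht _
    exact IsClopen.inter hs ht

variable {Γ : Type} [Group Γ]

/-- invariant probability measures carried by `K` -/
def MK (a : Γ → C(C, C)) (K : Set C) : Set (ProbabilityMeasure C) :=
  {μ | (∀ g, ∀ U, IsClopen U → (μ : Measure C).real (a g ⁻¹' U) = (μ : Measure C).real U) ∧
    ∀ U, IsClopen U → Disjoint U K → (μ : Measure C).real U = 0}

lemma isClosed_MK (a : Γ → C(C, C)) (K : Set C) : IsClosed (MK a K) := by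
  have h1 : IsClosed {μ : ProbabilityMeasure C | ∀ g, ∀ U, IsClopen U →
      (μ : Measure C).real (a g ⁻¹' U) = (μ : Measure C).real U} := by
    simp only [setOf_forall]
    refine isClosed_iInter fun g => isClosed_iInter fun U => isClosed_iInter fun hU => ?_
    exact isClosed_eq (cont_real (hU.preimage (a g).continuous)) (cont_real hU)
  have h2 : IsClosed {μ : ProbabilityMeasure C | ∀ U, IsClopen U → Disjoint U K →
      (μ : Measure C).real U = 0} := by
    simp only [setOf_forall]
    refine isClosed_iInter fun U => isClosed_iInter fun hU => isClosed_iInter fun _ => ?_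
    exact isClosed_eq (cont_real hU) continuous_const
  exact h1.inter h2

lemma map_eq_of_mem {a : Γ → C(C, C)} {K : Set C} {μ : ProbabilityMeasure C} (h : μ ∈ MK a K)
    (g : Γ) : (μ : Measure C).map (a g) = μ := by
  apply ext_clopen
  intro U hU
  rw [map_measureReal_apply (a g).continuous.measurable hU.isOpen.measurableSet]
  exact h.1 g U hU

/-- the empirical measure -/
noncomputable def emp (S : Finset Γ) (hS : S.Nonempty) (p : Γ → C) : ProbabilityMeasure C :=
  ⟨(S.card : ENNReal)⁻¹ • ∑ h ∈ S, Measure.dirac (p h), ⟨by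
    have : (S.card : ENNReal) ≠ 0 := by simpa using hS.ne_empty
    simp only [Measure.smul_apply, Measure.coe_finsetSum, Finset.sum_apply, measure_univ,
      Finset.sum_const, nsmul_eq_mul, mul_one, smul_eq_mul]
    exact ENNReal.inv_mul_cancel this (by simp)⟩⟩

open Classical in
lemma emp_real (S : Finset Γ) (hS : S.Nonempty) (p : Γ → C) {U : Set C} (hU : MeasurableSet U) :
    (emp S hS p : Measure C).real U = ((S.filter fun h => p h ∈ U).card : ℝ) / S.card := by
  have h1 : (emp S hS p : Measure C) U =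
      (S.card : ENNReal)⁻¹ * ((S.filter fun h => p h ∈ U).card : ENNReal) := by
    change ((S.card : ENNReal)⁻¹ • ∑ h ∈ S, Measure.dirac (p h)) U = _
    simp only [Measure.smul_apply, Measure.coe_finsetSum, Finset.sum_apply, smul_eq_mul,
      Measure.dirac_apply' _ hU, indicator_apply, Pi.one_apply]
    rw [Finset.sum_boole]
  rw [measureReal_def, h1, ENNReal.toReal_mul, ENNReal.toReal_inv]
  simp [div_eq_inv_mul]

lemma MK_nonempty (a : Γ → C(C, C)) (hmul : ∀ g h, a (g * h) = (a g).comp (a h))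
    (hF : ∀ (F : Finset Γ) (ε : ℝ), 0 < ε → ∃ S : Finset Γ, S.Nonempty ∧
        ∀ g ∈ F, ((((fun x => g * x) '' (S : Set Γ)) \ (S : Set Γ)).ncard : ℝ) < ε * (S.card : ℝ))
    {K : Set C} (hne : K.Nonempty) (hK : ∀ g, ∀ z ∈ K, a g z ∈ K) : (MK a K).Nonempty := by
  classical
  obtain ⟨z, hz⟩ := hne
  let T : Finset Γ × ℕ → Set (ProbabilityMeasure C) := fun q =>
    {μ | (∀ g ∈ q.1, ∀ U, IsClopen U →
      (μ : Measure C).real (a g ⁻¹' U) ≤ (μ : Measure C).real U + 1 / ((q.2 : ℝ) + 1)) ∧
    ∀ U, IsClopen U → Disjoint U K → (μ : Measure C).real U = 0}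
  have hcl : ∀ q, IsClosed (T q) := by
    intro q
    have h1 : IsClosed {μ : ProbabilityMeasure C | ∀ g ∈ q.1, ∀ U, IsClopen U →
        (μ : Measure C).real (a g ⁻¹' U) ≤ (μ : Measure C).real U + 1 / ((q.2 : ℝ) + 1)} := by
      simp only [setOf_forall]
      refine isClosed_iInter fun g => isClosed_iInter fun _ =>
        isClosed_iInter fun U => isClosed_iInter fun hU => ?_
      exact isClosed_le (cont_real (hU.preimage (a g).continuous))
        ((cont_real hU).add continuous_const)
    have h2 : IsClosed {μ : ProbabilityMeasure C | ∀ U, IsClopen U → Disjoint U K →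
        (μ : Measure C).real U = 0} := by
      simp only [setOf_forall]
      refine isClosed_iInter fun U => isClosed_iInter fun hU => isClosed_iInter fun _ => ?_
      exact isClosed_eq (cont_real hU) continuous_const
    exact h1.inter h2
  have hmono : ∀ q q' : Finset Γ × ℕ, q ≤ q' → T q' ⊆ T q := by
    intro q q' hq μ hμ
    refine ⟨fun g hg U hU => (hμ.1 g (hq.1 hg) U hU).trans ?_, hμ.2⟩
    have h2 : (q.2 : ℝ) ≤ q'.2 := by exact_mod_cast hq.2
    gcongr
  have hTne : ∀ q, (T q).Nonempty := by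
    intro q
    obtain ⟨S, hS, hS'⟩ := hF q.1 (1 / ((q.2 : ℝ) + 1)) (by positivity)
    refine ⟨emp S hS fun h => a h z, fun g hg U hU => ?_, fun U hU hd => ?_⟩
    · rw [emp_real _ _ _ (hU.preimage (a g).continuous).isOpen.measurableSet,
        emp_real _ _ _ hU.isOpen.measurableSet]
      have hc : (0 : ℝ) < S.card := by exact_mod_cast hS.card_pos
      have h1 := hS' g hg
      have h2 : ((fun x => g * x) '' (S : Set Γ)) \ (S : Set Γ) =
          ((S.image (fun x => g * x) \ S : Finset Γ) : Set Γ) := by simp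
      rw [h2, Set.ncard_coe_finset] at h1
      have h3 : (S.filter fun h => a h z ∈ a g ⁻¹' U).card ≤
          (S.filter fun h => a h z ∈ U).card + (S.image (fun x => g * x) \ S).card := by
        refine le_trans ?_ (Finset.card_union_le _ _)
        refine Finset.card_le_card_of_injOn (fun x => g * x) ?_
          (fun x _ y _ h => mul_left_cancel h)
        intro x hx
        simp only [Finset.coe_filter, mem_setOf_eq, mem_preimage] at hx
        simp only [Finset.coe_union, Finset.coe_filter, mem_union, mem_setOf_eq, Finset.coe_sdiff,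
          Finset.coe_image, mem_diff, mem_image, Finset.mem_coe]
        by_cases hgx : g * x ∈ S
        · left
          refine ⟨hgx, ?_⟩
          rw [hmul]
          exact hx.2
        · right
          exact ⟨⟨x, hx.1, rfl⟩, hgx⟩
      have h4 : ((S.filter fun h => a h z ∈ a g ⁻¹' U).card : ℝ) ≤
          (S.filter fun h => a h z ∈ U).card + (S.image (fun x => g * x) \ S).card := by
        exact_mod_cast h3
      rw [div_le_iff₀ hc, add_mul, div_mul_cancel₀ _ hc.ne']
      linarith
    · rw [emp_real _ _ _ hU.isOpen.measurableSet]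
      have : (S.filter fun h => a h z ∈ U) = ∅ := by
        refine Finset.filter_eq_empty_iff.2 fun h _ hh => ?_
        exact Set.disjoint_left.1 hd hh (hK h z hz)
      simp [this]
  have hdir : Directed (· ⊇ ·) T := fun q q' =>
    ⟨q ⊔ q', hmono _ _ le_sup_left, hmono _ _ le_sup_right⟩
  obtain ⟨μ, hμ⟩ := IsCompact.nonempty_iInter_of_directed_nonempty_isCompact_isClosed T hdir hTne
    (fun q => (hcl q).isCompact) hcl
  rw [mem_iInter] at hμ
  have hle : ∀ g U, IsClopen U → (μ : Measure C).real (a g ⁻¹' U) ≤ (μ : Measure C).real U := by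
    intro g U hU
    refine le_of_forall_pos_le_add fun ε hε => ?_
    obtain ⟨n, hn⟩ := exists_nat_one_div_lt hε
    exact ((hμ ({g}, n)).1 g (Finset.mem_singleton_self g) U hU).trans (by linarith)
  refine ⟨μ, fun g U hU => le_antisymm (hle g U hU) ?_, (hμ (∅, 0)).2⟩
  have h1 := hle g Uᶜ hU.compl
  rw [preimage_compl, probReal_compl_eq_one_sub (hU.preimage (a g).continuous).isOpen.measurableSet,
    probReal_compl_eq_one_sub hU.isOpen.measurableSet] at h1
  linarith

lemma cond_mem {a : Γ → C(C, C)} {K : Set C} {μ : ProbabilityMeasure C} (h : μ ∈ MK a K)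
    {s : Set C} (hs : MeasurableSet s) (hinv : ∀ g, a g ⁻¹' s = s) (h0 : (μ : Measure C) s ≠ 0) :
    ∃ ν ∈ MK a K, ∀ U, (ν : Measure C).real U =
      (μ : Measure C).real (s ∩ U) / (μ : Measure C).real s := by
  have hp : IsProbabilityMeasure (ProbabilityTheory.cond (μ : Measure C) s) :=
    ProbabilityTheory.cond_isProbabilityMeasure h0
  have key : ∀ U, (ProbabilityTheory.cond (μ : Measure C) s).real U =
      (μ : Measure C).real (s ∩ U) / (μ : Measure C).real s := by
    intro U
    rw [measureReal_def, ProbabilityTheory.cond_apply hs, ENNReal.toReal_mul, ENNReal.toReal_inv,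
      div_eq_inv_mul]
    rfl
  refine ⟨⟨_, hp⟩, ⟨fun g U hU => ?_, fun U hU hd => ?_⟩, key⟩
  · change (ProbabilityTheory.cond (μ : Measure C) s).real _ =
      (ProbabilityTheory.cond (μ : Measure C) s).real _
    rw [key, key]
    congr 1
    conv_rhs => rw [← map_eq_of_mem h g]
    rw [map_measureReal_apply (a g).continuous.measurable (hs.inter hU.isOpen.measurableSet),
      preimage_inter, hinv]
  · change (ProbabilityTheory.cond (μ : Measure C) s).real _ = _
    rw [key]
    have h1 : (μ : Measure C).real (s ∩ U) ≤ (μ : Measure C).real U :=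
      measureReal_mono inter_subset_right
    rw [h.2 U hU hd] at h1
    rw [le_antisymm h1 measureReal_nonneg, zero_div]

theorem exists_erg (a : Γ → C(C, C)) (hmul : ∀ g h, a (g * h) = (a g).comp (a h))
    (hF : ∀ (F : Finset Γ) (ε : ℝ), 0 < ε → ∃ S : Finset Γ, S.Nonempty ∧
        ∀ g ∈ F, ((((fun x => g * x) '' (S : Set Γ)) \ (S : Set Γ)).ncard : ℝ) < ε * (S.card : ℝ))
    {K : Set C} (hne : K.Nonempty) (hK : ∀ g, ∀ z ∈ K, a g z ∈ K) :
    ∃ μ ∈ MK a K, ∀ s : Set C, MeasurableSet s → (∀ g, a g ⁻¹' s = s) →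
      (μ : Measure C) s = 0 ∨ (μ : Measure C) s = 1 := by
  have hc : Countable (Clopens C) := Clopens.countable_iff_secondCountable.2 inferInstance
  obtain ⟨U, hU⟩ := exists_surjective_nat (Clopens C)
  let m : ProbabilityMeasure C → ℕ → ℝ := fun μ n => (μ : Measure C).real (U n)
  have hm0 : ∀ μ n, 0 ≤ m μ n := fun μ n => measureReal_nonneg
  have hm1 : ∀ μ n, m μ n ≤ 1 := fun μ n => measureReal_le_one
  let Φ : ProbabilityMeasure C → ℝ := fun μ => ∑' n, (1 / 2 : ℝ) ^ n * (m μ n) ^ 2
  have hb : ∀ μ n, ‖(1 / 2 : ℝ) ^ n * (m μ n) ^ 2‖ ≤ (1 / 2 : ℝ) ^ n := by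
    intro μ n
    rw [Real.norm_of_nonneg (by positivity)]
    have : (m μ n) ^ 2 ≤ 1 := pow_le_one₀ (hm0 μ n) (hm1 μ n)
    exact mul_le_of_le_one_right (by positivity) this
  have hsum : ∀ μ, Summable fun n => (1 / 2 : ℝ) ^ n * (m μ n) ^ 2 := fun μ =>
    Summable.of_norm_bounded summable_geometric_two (hb μ)
  have hΦ : Continuous Φ := by
    refine continuous_tsum (fun n => ?_) summable_geometric_two (fun n μ => hb μ n)
    exact continuous_const.mul ((cont_real (U n).isClopen).pow 2)
  obtain ⟨μ, hμ, hmax⟩ := (isClosed_MK a K).isCompact.exists_isMaxOn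
    (MK_nonempty a hmul hF hne hK) hΦ.continuousOn
  refine ⟨μ, hμ, fun s hs hinv => ?_⟩
  by_contra hcon
  push Not at hcon
  have h0' : (μ : Measure C) sᶜ ≠ 0 := fun h => hcon.2 ((prob_compl_eq_zero_iff hs).1 h)
  obtain ⟨ν₁, h₁, e₁⟩ := cond_mem hμ hs hinv hcon.1
  obtain ⟨ν₂, h₂, e₂⟩ := cond_mem hμ hs.compl (fun g => by rw [preimage_compl, hinv]) h0'
  set p := (μ : Measure C).real s with hp
  set q := (μ : Measure C).real sᶜ with hq
  have hp0 : 0 < p := ENNReal.toReal_pos hcon.1 (measure_ne_top _ _)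
  have hq0 : 0 < q := ENNReal.toReal_pos h0' (measure_ne_top _ _)
  have hpq : p + q = 1 := by
    rw [hq, probReal_compl_eq_one_sub hs]; ring
  have hcomb : ∀ n, m μ n = p * m ν₁ n + q * m ν₂ n := by
    intro n
    simp only [m]
    rw [e₁, e₂, mul_div_cancel₀ _ hp0.ne', mul_div_cancel₀ _ hq0.ne', inter_comm s,
      inter_comm sᶜ, ← diff_eq, measureReal_inter_add_diff hs]
  have hne' : ∃ n, m ν₁ n ≠ m ν₂ n := by
    by_contra hh
    push Not at hh
    have : (ν₁ : Measure C) = ν₂ := by
      apply ext_clopen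
      intro V hV
      obtain ⟨n, hn⟩ := hU ⟨V, hV⟩
      have := hh n
      simp only [m, hn] at this
      exact this
    have e := e₁ s
    rw [this, e₂, compl_inter_self, inter_self, measureReal_empty, zero_div,
      div_self hp0.ne'] at e
    exact zero_ne_one e
  obtain ⟨n₀, hn₀⟩ := hne'
  have hq' : q = 1 - p := by linarith
  have hlt : Φ μ < ∑' n, (p * ((1 / 2 : ℝ) ^ n * (m ν₁ n) ^ 2) +
      q * ((1 / 2 : ℝ) ^ n * (m ν₂ n) ^ 2)) := by
    have hid : ∀ n, p * ((1 / 2 : ℝ) ^ n * (m ν₁ n) ^ 2) + q * ((1 / 2 : ℝ) ^ n * (m ν₂ n) ^ 2) =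
        (1 / 2 : ℝ) ^ n * (m μ n) ^ 2 + (1 / 2 : ℝ) ^ n * (p * q) * (m ν₁ n - m ν₂ n) ^ 2 := by
      intro n
      rw [hcomb n, hq']; ring
    refine Summable.tsum_lt_tsum (i := n₀) (fun n => ?_) ?_ (hsum μ)
      (((hsum ν₁).mul_left p).add ((hsum ν₂).mul_left q))
    · simp only [hid]
      have : 0 ≤ (1 / 2 : ℝ) ^ n * (p * q) * (m ν₁ n - m ν₂ n) ^ 2 := by positivity
      linarith
    · rw [hid]
      have h3 : 0 < (m ν₁ n₀ - m ν₂ n₀) ^ 2 := by
        have := sub_ne_zero.2 hn₀
        positivity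
      have : 0 < (1 / 2 : ℝ) ^ n₀ * (p * q) * (m ν₁ n₀ - m ν₂ n₀) ^ 2 := by positivity
      linarith
  rw [((hsum ν₁).mul_left p).tsum_add ((hsum ν₂).mul_left q), tsum_mul_left, tsum_mul_left] at hlt
  have k1 : Φ ν₁ ≤ Φ μ := hmax h₁
  have k2 : Φ ν₂ ≤ Φ μ := hmax h₂
  change Φ μ < p * Φ ν₁ + q * Φ ν₂ at hlt
  have k3 : p * Φ ν₁ ≤ p * Φ μ := mul_le_mul_of_nonneg_left k1 hp0.le
  have k4 : q * Φ ν₂ ≤ q * Φ μ := mul_le_mul_of_nonneg_left k2 hq0.le
  have k5 : p * Φ μ + q * Φ μ = Φ μ := by rw [← add_mul, hpq, one_mul]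
  linarith

end Pool.Agent.H159Z.Bauer
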