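import Mathlib

/-! A finitely generated (locally finite)-by-`ℤ` group which remembers a marked sequence. -/

set_option autoImplicit false

open Set

namespace Pool.Agent.H159Z.Bauer

abbrev S3 := Equiv.Perm (Fin 3)
abbrev A := S3 × S3
abbrev L := Bool × Bool

/-- the period used around position `k` -/
def per (k : ℤ) : ℕ := (Nat.unpair (Nat.sqrt k.toNat)).1 + 1

/-- the marked sequence: long pieces of `0^n 1^n 0^n 1^n ...` for every `n` -/
def xs (k : ℤ) : Bool := decide ((k / (per k : ℤ)) % 2 = 0)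

/-- a marker in the first coordinate forces the second coordinate to be the marked sequence -/
def X : Set (ℤ → L) := {y | ∀ n m : ℤ, (y n).1 = true → (y (n + m)).2 = xs m}

def sh (k : ℤ) (y : X) : X :=
  ⟨fun n => y.1 (n + k), fun n m h => by
    have := y.2 (n + k) m h
    simpa [add_right_comm] using this⟩

@[simp] lemma sh_zero (y : X) : sh 0 y = y := by
  apply Subtype.ext; funext n; simp [sh]

lemma sh_sh (k j : ℤ) (y : X) : sh k (sh j y) = sh (k + j) y := by
  apply Subtype.ext; funext n; simp [sh, add_assoc]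

@[ext] structure G where
  f : X → A
  k : ℤ

instance : Mul G := ⟨fun g h => ⟨fun x => g.f (sh h.k x) * h.f x, g.k + h.k⟩⟩
instance : One G := ⟨⟨fun _ => 1, 0⟩⟩
instance : Inv G := ⟨fun g => ⟨fun x => (g.f (sh (-g.k) x))⁻¹, -g.k⟩⟩

@[simp] lemma mul_f (g h : G) (x : X) : (g * h).f x = g.f (sh h.k x) * h.f x := rfl
@[simp] lemma mul_k (g h : G) : (g * h).k = g.k + h.k := rfl
@[simp] lemma one_f (x : X) : (1 : G).f x = 1 := rfl
@[simp] lemma one_k : (1 : G).k = 0 := rfl
@[simp] lemma inv_f (g : G) (x : X) : (g⁻¹).f x = (g.f (sh (-g.k) x))⁻¹ := rfl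
@[simp] lemma inv_k (g : G) : (g⁻¹).k = -g.k := rfl

instance : Group G := Group.ofLeftAxioms
  (fun a b c => by
    refine G.ext (funext fun x => ?_) (add_assoc _ _ _)
    simp [sh_sh, mul_assoc])
  (fun a => by
    refine G.ext (funext fun x => ?_) (zero_add _)
    simp)
  (fun a => by
    refine G.ext (funext fun x => ?_) (neg_add_cancel _)
    simp [sh_sh])

/-- the shift by `k` -/
def tk (k : ℤ) : G := ⟨fun _ => 1, k⟩

/-- the function generator at position `n` -/
def sn (n : ℤ) (φ : L → A) : G := ⟨fun x => φ (x.1 n), 0⟩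

lemma tk_add (k j : ℤ) : tk (k + j) = tk k * tk j := by
  refine G.ext (funext fun x => ?_) rfl
  simp [tk]

lemma tk_zero : tk 0 = 1 := rfl

lemma tk_neg (k : ℤ) : tk (-k) = (tk k)⁻¹ := by
  refine G.ext (funext fun x => ?_) rfl
  simp [tk]

lemma sn_eq (n : ℤ) (φ : L → A) : sn n φ = tk (-n) * sn 0 φ * tk n := by
  refine G.ext (funext fun x => ?_) (by simp [sn, tk])
  simp [tk, sn, sh]

def gens : Set G := insert (tk 1) (range (sn 0))

/-- the group -/
def Gam : Subgroup G := Subgroup.closure gens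

lemma tk_mem (k : ℤ) : tk k ∈ Gam := by
  have h1 : tk 1 ∈ Gam := Subgroup.subset_closure (mem_insert _ _)
  induction k using Int.induction_on with
  | zero => exact Gam.one_mem
  | succ n ih => rw [tk_add]; exact Gam.mul_mem ih h1
  | pred n ih => rw [sub_eq_add_neg, tk_add, tk_neg 1]; exact Gam.mul_mem ih (Gam.inv_mem h1)

lemma sn_mem (n : ℤ) (φ : L → A) : sn n φ ∈ Gam := by
  rw [sn_eq]
  exact Gam.mul_mem (Gam.mul_mem (tk_mem _)
    (Subgroup.subset_closure (mem_insert_of_mem _ ⟨φ, rfl⟩))) (tk_mem _)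

def T (k : ℤ) : Gam := ⟨tk k, tk_mem k⟩
def S (n : ℤ) (φ : L → A) : Gam := ⟨sn n φ, sn_mem n φ⟩

lemma T_add (k j : ℤ) : T (k + j) = T k * T j := Subtype.ext (tk_add k j)
lemma T_zero : T 0 = 1 := rfl
lemma S_eq (n : ℤ) (φ : L → A) : S n φ = T (-n) * S 0 φ * T n := Subtype.ext (sn_eq n φ)

lemma S_mul (n : ℤ) (φ ψ : L → A) : S n (φ * ψ) = S n φ * S n ψ := by
  apply Subtype.ext
  refine G.ext (funext fun x => ?_) rfl
  simp [S, sn]

lemma S_comm (n m : ℤ) (φ ψ : L → A) (h : ∀ x : X, Commute (φ (x.1 n)) (ψ (x.1 m))) :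
    S n φ * S m ψ = S m ψ * S n φ := by
  apply Subtype.ext
  refine G.ext (funext fun x => ?_) rfl
  simpa [S, sn] using (h x).eq

lemma gens_finite : gens.Finite := (finite_range _).insert _

lemma fg_Gam : Group.FG Gam :=
  (Group.fg_iff_subgroup_fg Gam).2 ((Subgroup.fg_iff Gam).2 ⟨gens, rfl, gens_finite⟩)

lemma Gam_induction {p : Gam → Prop} (h1 : p 1) (hT : p (T 1)) (hS : ∀ φ, p (S 0 φ))
    (hmul : ∀ g h, p g → p h → p (g * h)) (hinv : ∀ g, p g → p g⁻¹) (g : Gam) : p g := by
  obtain ⟨g, hg⟩ := g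
  induction hg using Subgroup.closure_induction with
  | mem x hx =>
    rcases hx with rfl | ⟨φ, rfl⟩
    · exact hT
    · exact hS φ
  | one => exact h1
  | mul x y hx hy ihx ihy => exact hmul ⟨x, hx⟩ ⟨y, hy⟩ ihx ihy
  | inv x hx ihx => exact hinv ⟨x, hx⟩ ihx

instance : Countable Gam := by
  have h : Finite gens := gens_finite
  have hs : Function.Surjective
      (fun w : FreeGroup gens => (⟨FreeGroup.lift (fun x : gens => (x : G)) w, by
        have := FreeGroup.range_lift_eq_closure (f := fun x : gens => (x : G))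
        have h2 : FreeGroup.lift (fun x : gens => (x : G)) w ∈
          (FreeGroup.lift (fun x : gens => (x : G))).range := ⟨w, rfl⟩
        rw [this, Subtype.range_coe] at h2
        exact h2⟩ : Gam)) := by
    rintro ⟨g, hg⟩
    have := FreeGroup.range_lift_eq_closure (f := fun x : gens => (x : G))
    rw [Subtype.range_coe] at this
    have h2 : g ∈ (FreeGroup.lift (fun x : gens => (x : G))).range := by
      rw [this]; exact hg
    obtain ⟨w, hw⟩ := h2
    exact ⟨w, Subtype.ext hw⟩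
  exact hs.countable

theorem folner (F : Finset Gam) (ε : ℝ) (hε : 0 < ε) : ∃ S : Finset Gam, S.Nonempty ∧
    ∀ g ∈ F, ((((fun x => g * x) '' (S : Set Gam)) \ (S : Set Gam)).ncard : ℝ) <
      ε * (S.card : ℝ) := by
  classical
  obtain ⟨K, hK⟩ : ∃ K : ℕ, ∀ g ∈ F, g.1.k.natAbs ≤ K :=
    ⟨F.sup fun g => g.1.k.natAbs, fun g hg => Finset.le_sup (f := fun g : Gam => g.1.k.natAbs) hg⟩
  obtain ⟨N, hN⟩ := exists_nat_gt (2 * K / ε)
  have hN' : (2 * K : ℝ) < ε * N := by rwa [div_lt_iff₀ hε, mul_comm (N : ℝ)] at hN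
  have hN0 : 0 < N := by
    rcases Nat.eq_zero_or_pos N with rfl | h
    · simp at hN'
      have : (0 : ℝ) ≤ K := Nat.cast_nonneg K
      linarith
    · exact h
  let π : X → (F × Fin N → A) := fun x q => q.1.1.1.f (sh (q.2 : ℕ) x)
  let L0 : Set Gam := {h | h.1.k = 0 ∧ ∀ x x', π x = π x' → h.1.f x = h.1.f x'}
  have hL0 : L0.Finite := by
    let r : Gam → ((F × Fin N → A) → A) := fun h q =>
      if hq : ∃ x, π x = q then h.1.f hq.choose else 1
    refine Set.Finite.of_finite_image (f := r) (Set.toFinite _) ?_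
    intro h hh h' hh' e
    apply Subtype.ext
    refine G.ext (funext fun x => ?_) (hh.1.trans hh'.1.symm)
    have hq : ∃ x', π x' = π x := ⟨x, rfl⟩
    have e1 := congrFun e (π x)
    simp only [r, dif_pos hq] at e1
    rw [← hh.2 _ _ hq.choose_spec, e1, hh'.2 _ _ hq.choose_spec]
  let u : ℕ × Gam → Gam := fun q => T q.1 * q.2
  have hu : InjOn u (univ ×ˢ L0) := by
    rintro ⟨j, l⟩ ⟨-, hl⟩ ⟨j', l'⟩ ⟨-, hl'⟩ e
    have e1 : (T j * l).1.k = (T j' * l').1.k := congrArg (fun g : Gam => g.1.k) e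
    have e2 : j = j' := by
      have a1 : l.1.k = 0 := hl.1
      have a2 : l'.1.k = 0 := hl'.1
      simpa [T, tk, a1, a2] using e1
    subst e2
    have : l = l' := mul_left_cancel e
    rw [this]
  let Lf := hL0.toFinset
  have hLf : 0 < Lf.card := Finset.card_pos.2 ⟨1, by
    simp only [Lf, Set.Finite.mem_toFinset]
    exact ⟨rfl, fun _ _ _ => rfl⟩⟩
  let S := (Finset.range N ×ˢ Lf).image u
  have hScard : S.card = N * Lf.card := by
    rw [Finset.card_image_of_injOn, Finset.card_product, Finset.card_range]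
    refine hu.mono ?_
    rintro ⟨j, l⟩ h
    simp only [Finset.coe_product, mem_prod, Finset.mem_coe, Lf, Set.Finite.mem_toFinset] at h
    exact ⟨mem_univ _, h.2⟩
  refine ⟨S, Finset.card_pos.1 (by rw [hScard]; positivity), fun g hg => ?_⟩
  let B : Finset ℕ := Finset.range K ∪ Finset.Ico (N - K) N
  have hB : B.card ≤ 2 * K := by
    refine (Finset.card_union_le _ _).trans ?_
    rw [Finset.card_range, Nat.card_Ico]
    omega
  have hsub : ((fun x => g * x) '' (S : Set Gam)) \ (S : Set Gam) ⊆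
      (((B ×ˢ Lf).image fun q => g * u q : Finset Gam) : Set Gam) := by
    rintro _ ⟨⟨h, hh, rfl⟩, hn⟩
    simp only [S, Finset.coe_image, Finset.coe_product, mem_image, mem_prod, Finset.mem_coe,
      Finset.mem_range] at hh
    obtain ⟨⟨j, l⟩, ⟨hj, hl⟩, rfl⟩ := hh
    simp only [Finset.coe_image, Finset.coe_product, mem_image, mem_prod, Finset.mem_coe]
    refine ⟨(j, l), ⟨?_, hl⟩, rfl⟩
    by_contra hjB
    apply hn
    simp only [B, Finset.mem_union, Finset.mem_range, Finset.mem_Ico, not_or] at hjB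
    have hKg := hK g hg
    have hl' : l ∈ L0 := by simpa [Lf] using hl
    simp only at hj
    obtain ⟨j', hj'⟩ : ∃ j' : ℕ, (j' : ℤ) = g.1.k + j := ⟨(g.1.k + j).toNat, by omega⟩
    simp only [S, Finset.coe_image, Finset.coe_product, mem_image, mem_prod, Finset.mem_coe,
      Finset.mem_range]
    refine ⟨(j', T (-(j' : ℤ)) * (g * (T j * l))), ⟨by simp only; omega, ?_⟩, ?_⟩
    · simp only [Lf, Set.Finite.mem_toFinset]
      have a1 : l.1.k = 0 := hl'.1
      refine ⟨?_, fun x x' hx => ?_⟩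
      · simp [T, tk, a1]; omega
      · have e1 := congrFun hx (⟨g, hg⟩, ⟨j, hj⟩)
        have e2 := hl'.2 x x' hx
        simp only [π] at e1
        simp [T, tk, a1, e1, e2]
    · simp only [u]
      rw [← mul_assoc, ← T_add, add_neg_cancel, T_zero, one_mul]
  have h1 := Set.ncard_le_ncard hsub (Finset.finite_toSet _)
  rw [Set.ncard_coe_finset] at h1
  have h2 : ((B ×ˢ Lf).image fun q => g * u q).card ≤ 2 * K * Lf.card := by
    refine Finset.card_image_le.trans ?_
    rw [Finset.card_product]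
    exact Nat.mul_le_mul_right _ hB
  have h3 : ((((fun x => g * x) '' (S : Set Gam)) \ (S : Set Gam)).ncard : ℝ) ≤
      2 * K * Lf.card := by exact_mod_cast h1.trans h2
  rw [hScard]
  have h4 : (0 : ℝ) < Lf.card := by exact_mod_cast hLf
  push_cast
  calc _ ≤ (2 * K : ℝ) * Lf.card := h3
    _ < ε * N * Lf.card := mul_lt_mul_of_pos_right hN' h4
    _ = _ := by ring

end Pool.Agent.H159Z.Bauer
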