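import Mathlib
import Pool.Agent.H546Z.CantorHomeo
import Pool.Agent.H159Z.Bauer.Erg
import Pool.Agent.H159Z.Bauer.Grp

/-! The base action of the group on the Cantor space. -/

set_option autoImplicit false

open Set Filter Topology TopologicalSpace

namespace Pool.Agent.H159Z.Bauer

/-- Brouwer's description of the Cantor space, for products with the Cantor space -/
lemma exists_homeo_prod (Y : Type) [TopologicalSpace Y] [CompactSpace Y] [T2Space Y]
    [TotallyDisconnectedSpace Y] [SecondCountableTopology Y] [Nonempty Y] :
    Nonempty (C ≃ₜ Y × C) := by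
  classical
  have hc : Countable (Clopens (Y × C)) := Clopens.countable_iff_secondCountable.2 inferInstance
  obtain ⟨U, hU⟩ := exists_surjective_nat (Clopens (Y × C))
  let e : Y × C → C := fun z n => decide (z ∈ (U n : Set (Y × C)))
  have he : Continuous e := by
    refine continuous_pi fun n => ?_
    exact (IsLocallyConstant.iff_continuous _).1 (by
      intro s
      have h1 := (U n).isClopen
      by_cases ht : true ∈ s <;> by_cases hf : false ∈ s
      · convert isOpen_univ
        ext z
        by_cases hz : z ∈ U n <;> simp [e, hz, ht, hf]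
      · convert h1.isOpen
        ext z
        by_cases hz : z ∈ U n <;> simp [e, hz, ht, hf]
      · convert h1.compl.isOpen
        ext z
        by_cases hz : z ∈ U n <;> simp [e, hz, ht, hf]
      · convert isOpen_empty
        ext z
        by_cases hz : z ∈ U n <;> simp [e, hz, ht, hf])
  have hinj : Function.Injective e := by
    intro z z' h
    by_contra hne
    obtain ⟨V, hV, h1, h2⟩ := exists_isClopen_of_totally_separated hne
    obtain ⟨n, hn⟩ := hU ⟨V, hV⟩
    have := congrFun h n
    simp only [e, hn, decide_eq_decide] at this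
    exact h2 (this.1 h1)
  have hemb : IsClosedEmbedding e := he.isClosedEmbedding hinj
  have hperf : Perfect (range e) := by
    refine ⟨hemb.isClosed_range, ?_⟩
    rintro _ ⟨z, rfl⟩
    rw [accPt_iff_nhds]
    intro W hW
    have h1 : Tendsto (fun n : ℕ => (z.1, Function.update z.2 n (!z.2 n))) atTop (𝓝 z) := by
      refine Tendsto.prodMk_nhds tendsto_const_nhds ?_
      rw [tendsto_pi_nhds]
      intro i
      refine tendsto_const_nhds.congr' ?_
      filter_upwards [eventually_gt_atTop i] with n hn
      rw [Function.update_of_ne hn.ne]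
    obtain ⟨n, hn⟩ := ((he.tendsto z).comp h1).eventually hW |>.exists
    refine ⟨_, ⟨hn, mem_range_self _⟩, fun h => ?_⟩
    have h2 := congrFun (congrArg Prod.snd (hinj h)) n
    simp at h2
  obtain ⟨h⟩ := Pool.Agent.H546Z.Cantor.exists_homeo hperf (range_nonempty e)
  exact ⟨h.trans hemb.isEmbedding.toHomeomorph.symm⟩

lemma isClosed_X : IsClosed X := by
  have : X = ⋂ n : ℤ, ⋂ m : ℤ, (fun y : ℤ → L => (y n, y (n + m))) ⁻¹'
      {q : L × L | q.1.1 = true → q.2.2 = xs m} := by
    ext y; simp [X]
  rw [this]
  exact isClosed_iInter fun n => isClosed_iInter fun m =>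
    (isClosed_discrete _).preimage (by fun_prop)

instance : CompactSpace X := isCompact_iff_compactSpace.1 isClosed_X.isCompact

/-- the marked point -/
def y0 : X := ⟨fun n => (decide (n = 0), xs n), fun n m h => by
  have : n = 0 := by simpa using h
  simp [this]⟩

instance : Nonempty X := ⟨y0⟩

instance : TopologicalSpace S3 := ⊥
instance : DiscreteTopology S3 := ⟨rfl⟩

lemma continuous_sh (k : ℤ) : Continuous (sh k) := by
  refine Continuous.subtype_mk ?_ _
  exact continuous_pi fun n => (continuous_apply (n + k)).comp continuous_subtype_val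

lemma continuous_f (g : Gam) : Continuous g.1.f := by
  induction g using Gam_induction with
  | h1 => exact continuous_const
  | hT => exact continuous_const
  | hS φ =>
    exact (continuous_of_discreteTopology (f := φ)).comp
      ((continuous_apply 0).comp continuous_subtype_val)
  | hmul g h ihg ihh =>
    exact (continuous_of_discreteTopology (f := fun q : A × A => q.1 * q.2)).comp
      ((ihg.comp (continuous_sh h.1.k)).prodMk ihh)
  | hinv g ih =>
    exact (continuous_of_discreteTopology (f := fun q : A => q⁻¹)).comp
      (ih.comp (continuous_sh (-g.1.k)))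

/-- the natural action on `X × A × C` -/
def act (g : Gam) (z : (X × A) × C) : (X × A) × C := ((sh g.1.k z.1.1, g.1.f z.1.1 * z.1.2), z.2)

lemma continuous_act (g : Gam) : Continuous (act g) := by
  refine Continuous.prodMk (Continuous.prodMk ?_ ?_) continuous_snd
  · exact (continuous_sh _).comp (continuous_fst.comp continuous_fst)
  · exact (continuous_of_discreteTopology (f := fun q : A × A => q.1 * q.2)).comp
      (((continuous_f g).comp (continuous_fst.comp continuous_fst)).prodMk
        (continuous_snd.comp continuous_fst))

lemma act_one (z : (X × A) × C) : act 1 z = z := by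
  simp [act]

lemma act_mul (g h : Gam) (z : (X × A) × C) : act (g * h) z = act g (act h z) := by
  simp [act, sh_sh, mul_assoc]

theorem exists_base : ∃ (a : Gam → C(C, C)) (ξ : C → L) (ι : C → A),
    a 1 = ContinuousMap.id C ∧ (∀ g h, a (g * h) = (a g).comp (a h)) ∧
    Continuous ξ ∧ Continuous ι ∧ (∃ z, (ξ z).1 = true) ∧
    (∀ z, ι (a (T 1) z) = ι z) ∧ ∀ φ z, ι (a (S 0 φ) z) = φ (ξ z) * ι z := by
  obtain ⟨h⟩ := exists_homeo_prod (X × A)
  refine ⟨fun g => ⟨fun z => h.symm (act g (h z)),
      h.symm.continuous.comp ((continuous_act g).comp h.continuous)⟩,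
    fun z => (h z).1.1.1 0, fun z => (h z).1.2, ?_, ?_, ?_, ?_, ?_, ?_, ?_⟩
  · ext1 z
    simp [act_one]
  · intro g g'
    ext1 z
    simp [act_mul]
  · exact (continuous_apply 0).comp (continuous_subtype_val.comp
      (continuous_fst.comp (continuous_fst.comp h.continuous)))
  · exact continuous_snd.comp (continuous_fst.comp h.continuous)
  · exact ⟨h.symm ((y0, 1), fun _ => true), by simp [y0]⟩
  · intro z
    simp [act, T, tk]
  · intro φ z
    simp [act, S, sn]

end Pool.Agent.H159Z.Bauer
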