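import Mathlib
import Pool.Agent.H159Z.Bauer.Base

/-! Every action satisfying the finitely many local rules has a non-closed set of ergodic
measures. -/

set_option autoImplicit false

open MeasureTheory Set Filter Topology

namespace Pool.Agent.H159Z.Bauer

/-- the periodic sequence -/
def pn (n : ℕ) (k : ℤ) : Bool := decide ((k / (n : ℤ)) % 2 = 0)

def cond (n : ℕ) (y : ℤ → Bool) (k : ℤ) : Prop :=
  y (k + n) = !y k ∧ ∀ d : ℕ, 0 < d → d < n → y k ≠ y (k + 1) → y (k + d) = y (k + d + 1)

lemma dvd_of_pn_ne {n : ℕ} (hn : 0 < n) {k : ℤ} (h : pn n k ≠ pn n (k + 1)) : (n : ℤ) ∣ k + 1 := by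
  by_contra hd
  apply h
  have hn' : (0 : ℤ) < n := by exact_mod_cast hn
  have h1 := Int.emod_nonneg k hn'.ne'
  have h2 := Int.emod_lt_of_pos k hn'
  have h3 := Int.emod_add_mul_ediv k n
  have h4 : k % n + 1 ≠ n := by
    intro e
    apply hd
    exact ⟨k / n + 1, by rw [mul_add, mul_one]; linarith⟩
  have h5 : (k + 1) / n = k / n := by
    have e : k + 1 = (k % n + 1) + n * (k / n) := by linarith
    rw [e, Int.add_mul_ediv_left _ _ hn'.ne', Int.ediv_eq_zero_of_lt (by omega) (by omega),
      zero_add]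
  simp only [pn, h5]

lemma pn_cond {n : ℕ} (hn : 0 < n) (k : ℤ) : cond n (pn n) k := by
  have hn' : (0 : ℤ) < n := by exact_mod_cast hn
  refine ⟨?_, fun d hd hdn h => ?_⟩
  · have e : (k + n) / (n : ℤ) = k / n + 1 := by
      have := Int.add_mul_ediv_left k 1 hn'.ne'
      rwa [mul_one] at this
    simp only [pn, e]
    rcases Int.emod_two_eq_zero_or_one (k / n) with h | h
    · have : (k / n + 1) % 2 = 1 := by omega
      simp [h, this]
    · have : (k / n + 1) % 2 = 0 := by omega
      simp [h, this]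
  · by_contra h'
    have h1 := dvd_of_pn_ne hn h
    have h2 := dvd_of_pn_ne hn h'
    have h3 : (n : ℤ) ∣ d := by
      have := dvd_sub h2 h1
      rwa [show k + d + 1 - (k + 1) = (d : ℤ) by ring] at this
    have := Int.le_of_dvd (by exact_mod_cast hd) h3
    omega

lemma window {n : ℕ} (hn : 0 < n) (N : ℕ) :
    ∃ j : ℤ, ∀ i : ℤ, |i| ≤ N → xs (i + j) = pn n (i + j) := by
  set m := Nat.pair (n - 1) N with hm
  have hNm : N ≤ m := Nat.right_le_pair _ _
  refine ⟨((m * m + m : ℕ) : ℤ), fun i hi => ?_⟩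
  have hi' := abs_le.1 hi
  have h1 : Nat.sqrt (i + ((m * m + m : ℕ) : ℤ)).toNat = m := by
    symm
    rw [Nat.eq_sqrt]
    have e : (m + 1) * (m + 1) = m * m + 2 * m + 1 := by ring
    rw [e]
    generalize m * m = w
    constructor <;> omega
  have h2 : per (i + ((m * m + m : ℕ) : ℤ)) = n := by
    rw [per, h1, hm, Nat.unpair_pair]
    simp only
    omega
  rw [xs, h2, pn]

lemma isClosed_cond (n : ℕ) (k : ℤ) : IsClosed {y : ℤ → Bool | cond n y k} := by
  have h1 : IsClosed {y : ℤ → Bool | y (k + n) = !y k} :=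
    (isClosed_discrete {q : Bool × Bool | q.1 = !q.2}).preimage
      (f := fun y : ℤ → Bool => (y (k + n), y k)) (by fun_prop)
  have h2 : IsClosed {y : ℤ → Bool | ∀ d : ℕ, 0 < d → d < n → y k ≠ y (k + 1) →
      y (k + d) = y (k + d + 1)} := by
    simp only [ofPred_forall (ι := ℕ), ofPred_forall (ι := 0 < _), ofPred_forall (ι := _ < n)]
    refine isClosed_iInter fun d => isClosed_iInter fun _ => isClosed_iInter fun _ => ?_
    exact (isClosed_discrete {q : (Bool × Bool) × Bool × Bool | q.1.1 ≠ q.1.2 → q.2.1 = q.2.2}).preimage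
      (f := fun y : ℤ → Bool => ((y k, y (k + 1)), y (k + d), y (k + d + 1))) (by fun_prop)
  exact h1.inter h2

/-- an action with labels satisfying the local rules -/
structure Rules where
  b : Gam → C(C, C)
  ξ : C → L
  ι : C → A
  hone : b 1 = ContinuousMap.id C
  hmul : ∀ g h, b (g * h) = (b g).comp (b h)
  cξ : Continuous ξ
  mark : ∃ z, (ξ z).1 = true
  hT : ∀ z, ι (b (T 1) z) = ι z
  hS : ∀ φ z, ι (b (S 0 φ) z) = φ (ξ z) * ι z

namespace Rules

variable (R : Rules)

lemma mul_apply (g h : Gam) (z : C) : R.b (g * h) z = R.b g (R.b h z) := by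
  rw [R.hmul]; rfl

lemma one_apply (z : C) : R.b 1 z = z := by rw [R.hone]; rfl

def xi (n : ℤ) (z : C) : L := R.ξ (R.b (T n) z)

lemma iota_T (k : ℤ) : ∀ z, R.ι (R.b (T k) z) = R.ι z := by
  induction k using Int.induction_on with
  | zero => intro z; rw [T_zero, one_apply]
  | succ n ih => intro z; rw [T_add, mul_apply, ih, R.hT]
  | pred n ih =>
    intro z
    rw [← R.hT, ← mul_apply, ← T_add, ← ih z]
    rw [show (1 : ℤ) + (-(n : ℤ) - 1) = -n by ring]

lemma iota_S (n : ℤ) (φ : L → A) (z : C) : R.ι (R.b (S n φ) z) = φ (R.xi n z) * R.ι z := by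
  rw [S_eq, mul_apply, mul_apply, iota_T, R.hS, iota_T, xi]

lemma xi_T (m k : ℤ) (z : C) : R.xi m (R.b (T k) z) = R.xi (m + k) z := by
  rw [xi, xi, T_add, mul_apply]

lemma rel {n m : ℤ} {φ ψ : L → A} (h : ∀ x : X, Commute (φ (x.1 n)) (ψ (x.1 m))) (z : C) :
    φ (R.xi n (R.b (S m ψ) z)) * ψ (R.xi m z) = ψ (R.xi m (R.b (S n φ) z)) * φ (R.xi n z) := by
  have e := congrArg (fun g => R.ι (R.b g z)) (S_comm n m φ ψ h)
  simp only [mul_apply, iota_S, ← mul_assoc] at e
  exact mul_right_cancel e

lemma xi_S1 (m n : ℤ) (φ : L → S3) (z : C) :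
    R.xi m (R.b (S n fun l => (φ l, 1)) z) = R.xi m z := by
  classical
  have h := R.rel (n := n) (m := m) (φ := fun l => (φ l, 1))
    (ψ := fun l => (1, if l = R.xi m z then Equiv.swap 0 1 else 1))
    (fun x => by simp [Commute, SemiconjBy]) z
  have h2 := congrArg Prod.snd h
  by_contra hne
  simp [hne] at h2

lemma xi_S2 (m n : ℤ) (φ : L → S3) (z : C) :
    R.xi m (R.b (S n fun l => (1, φ l)) z) = R.xi m z := by
  classical
  have h := R.rel (n := n) (m := m) (φ := fun l => (1, φ l))
    (ψ := fun l => (if l = R.xi m z then Equiv.swap 0 1 else 1, 1))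
    (fun x => by simp [Commute, SemiconjBy]) z
  have h2 := congrArg Prod.fst h
  by_contra hne
  simp [hne] at h2

lemma xi_S (m n : ℤ) (φ : L → A) (z : C) : R.xi m (R.b (S n φ) z) = R.xi m z := by
  have e : φ = (fun l => ((φ l).1, 1)) * fun l => (1, (φ l).2) := by
    funext l; simp
  rw [e, S_mul, mul_apply, xi_S1, xi_S2]

lemma marker (z : C) (hz : (R.xi 0 z).1 = true) (m : ℤ) : (R.xi m z).2 = xs m := by
  have h := R.rel (n := 0) (m := m)
    (φ := fun l => (if l.1 = true then Equiv.swap 0 1 else 1, 1))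
    (ψ := fun l => (if l.2 = xs m then 1 else Equiv.swap 1 2, 1))
    (fun x => by
      by_cases hx : (x.1 0).1 = true
      · have := x.2 0 m hx
        rw [zero_add] at this
        simp [Commute, SemiconjBy, this]
      · simp [Commute, SemiconjBy, hx]) z
  rw [xi_S, xi_S] at h
  have h2 := congrArg Prod.fst h
  by_contra hne
  simp only [hz, hne, if_true, if_false, Prod.fst_mul] at h2
  revert h2
  decide

/-- the second coordinates of the name of a point -/
def β (z : C) (n : ℤ) : Bool := (R.xi n z).2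

lemma continuous_β : Continuous R.β :=
  continuous_pi fun n => continuous_snd.comp (R.cξ.comp (R.b (T n)).continuous)

lemma β_act (g : Gam) : ∀ z n, R.β (R.b g z) n = R.β z (n + g.1.k) := by
  induction g using Gam_induction with
  | h1 => intro z n; rw [one_apply]; simp
  | hT => intro z n; rw [β, xi_T]; rfl
  | hS φ => intro z n; rw [β, xi_S]; simp [β, S, sn]
  | hmul g h ihg ihh =>
    intro z n
    rw [mul_apply, ihg, ihh, add_assoc]; rfl
  | hinv g ih =>
    intro z n
    have e := ih (R.b g⁻¹ z) (n + -g.1.k)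
    rw [← mul_apply, mul_inv_cancel, one_apply, neg_add_cancel_right] at e
    exact e.symm

def K (n : ℕ) : Set C := {z | ∀ k, cond n (R.β z) k}

lemma K_inv (n : ℕ) (g : Gam) (z : C) (hz : z ∈ R.K n) : R.b g z ∈ R.K n := by
  intro k
  have h := hz (k + g.1.k)
  refine ⟨?_, fun d hd hdn => ?_⟩
  · simpa only [β_act, add_right_comm k] using h.1
  · have := h.2 d hd hdn
    simp only [β_act]
    rwa [show k + 1 + g.1.k = k + g.1.k + 1 by ring, show k + d + g.1.k = k + g.1.k + d by ring,
      show k + d + 1 + g.1.k = k + g.1.k + d + 1 by ring]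

lemma K_nonempty {n : ℕ} (hn : 0 < n) : (R.K n).Nonempty := by
  obtain ⟨z, hz⟩ := R.mark
  have hz0 : (R.xi 0 z).1 = true := by rw [xi, T_zero, one_apply]; exact hz
  let W : ℕ → Set C := fun N => {w | ∀ k : ℤ, |k| ≤ N → cond n (R.β w) k}
  have hcl : ∀ N, IsClosed (W N) := by
    intro N
    simp only [W, ofPred_forall]
    exact isClosed_iInter fun k => isClosed_iInter fun _ =>
      (isClosed_cond n k).preimage R.continuous_β
  have hne : ∀ N, (W N).Nonempty := by
    intro N
    obtain ⟨j, hj⟩ := window hn (N + n + 1)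
    refine ⟨R.b (T j) z, fun k hk => ?_⟩
    have key : ∀ i : ℤ, |i| ≤ (N + n + 1 : ℕ) → R.β (R.b (T j) z) i = pn n (i + j) := by
      intro i hi
      rw [β, xi_T, R.marker z hz0, hj i hi]
    have hk' := abs_le.1 hk
    have hc := pn_cond hn (k + j)
    refine ⟨?_, fun d hd hdn => ?_⟩
    · rw [key, key, add_right_comm, hc.1] <;> (rw [abs_le]; push_cast; constructor <;> omega)
    · rw [key, key, key, key, add_right_comm k 1, add_right_comm k d j,
        show k + d + 1 + j = k + j + d + 1 by ring]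
      · exact hc.2 d hd hdn
      all_goals (rw [abs_le]; push_cast; constructor <;> omega)
  obtain ⟨w, hw⟩ := IsCompact.nonempty_iInter_of_sequence_nonempty_isCompact_isClosed W
    (fun N w hw k hk => hw k (hk.trans (by push_cast; linarith))) hne (hcl 0).isCompact hcl
  rw [mem_iInter] at hw
  exact ⟨w, fun k => hw k.natAbs k (by simp)⟩

def B (k : ℤ) : Set C := {z | R.β z k = true}
def D (k : ℤ) : Set C := {z | R.β z k ≠ R.β z (k + 1)}

lemma clopen_B (k : ℤ) : IsClopen (R.B k) :=
  (isClopen_discrete {true}).preimage ((continuous_apply k).comp R.continuous_β)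

lemma clopen_D (k : ℤ) : IsClopen (R.D k) :=
  (isClopen_discrete {q : Bool × Bool | q.1 ≠ q.2}).preimage
    (((continuous_apply k).comp R.continuous_β).prodMk
      ((continuous_apply (k + 1)).comp R.continuous_β))

lemma pre_B (k : ℤ) : R.b (T k) ⁻¹' R.B 0 = R.B k := by
  ext z
  simp [B, β_act, T, tk]

lemma pre_D (k : ℤ) : R.b (T k) ⁻¹' R.D 0 = R.D k := by
  ext z
  simp [D, β_act, T, tk, add_comm]

lemma half {n : ℕ} {μ : ProbabilityMeasure C} (hμ : μ ∈ MK R.b (R.K n)) :
    (μ : Measure C).real (R.B 0) = 1 / 2 := by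
  have h1 : (μ : Measure C).real (R.B n) = (μ : Measure C).real (R.B 0) := by
    rw [← R.pre_B]; exact hμ.1 _ _ (R.clopen_B 0)
  have h2 : (μ : Measure C).real (R.B 0 ∩ R.B n) = 0 := by
    refine hμ.2 _ ((R.clopen_B 0).inter (R.clopen_B n)) (Set.disjoint_left.2 fun z hz hK => ?_)
    have e := (hK 0).1
    have e1 : R.β z 0 = true := hz.1
    have e2 : R.β z n = true := hz.2
    rw [zero_add, e1, e2] at e
    simp at e
  have h3 : (μ : Measure C).real (R.B 0 ∪ R.B n)ᶜ = 0 := by
    refine hμ.2 _ ((R.clopen_B 0).union (R.clopen_B n)).compl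
      (Set.disjoint_left.2 fun z hz hK => ?_)
    have e := (hK 0).1
    simp only [B, compl_union, mem_inter_iff, mem_compl_iff, mem_ofPred_eq,
      Bool.not_eq_true] at hz
    rw [zero_add, hz.1, hz.2] at e
    simp at e
  rw [probReal_compl_eq_one_sub ((R.clopen_B 0).union (R.clopen_B n)).isOpen.measurableSet] at h3
  have h4 := measureReal_union_add_inter (μ := (μ : Measure C)) (s := R.B 0)
    (R.clopen_B n).isOpen.measurableSet
  linarith

lemma small {n : ℕ} {μ : ProbabilityMeasure C} (hμ : μ ∈ MK R.b (R.K (n + 1))) :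
    (μ : Measure C).real (R.D 0) ≤ 1 / ((n : ℝ) + 1) := by
  have h1 : ∀ k : ℤ, (μ : Measure C) (R.D k) = (μ : Measure C) (R.D 0) := by
    intro k
    refine (measureReal_eq_measureReal_iff (measure_ne_top _ _) (measure_ne_top _ _)).1 ?_
    rw [← R.pre_D]; exact hμ.1 _ _ (R.clopen_D 0)
  have hlt : ∀ i j : ℕ, i < j → j < n + 1 → AEDisjoint (μ : Measure C) (R.D i) (R.D j) := by
    intro i j hij hj
    refine (measureReal_eq_zero_iff (measure_ne_top _ _)).1 ?_
    refine hμ.2 _ ((R.clopen_D i).inter (R.clopen_D j)) (Set.disjoint_left.2 fun z hz hK => ?_)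
    have e := (hK i).2 (j - i) (by omega) (by omega) hz.1
    have e2 : (i : ℤ) + ((j - i : ℕ) : ℤ) = j := by omega
    rw [e2] at e
    exact hz.2 e
  have h2 := sum_measure_le_measure_univ (μ := (μ : Measure C)) (s := Finset.range (n + 1))
    (t := fun i : ℕ => R.D i)
    (fun i _ => (R.clopen_D i).isOpen.measurableSet.nullMeasurableSet) (by
      intro i hi j hj hne
      simp only [Finset.coe_range, mem_Iio] at hi hj
      rcases lt_or_gt_of_ne hne with h | h
      · exact hlt i j h hj
      · exact (hlt j i h hi).symm)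
  simp only [h1, Finset.sum_const, Finset.card_range, nsmul_eq_mul, measure_univ] at h2
  have h3 := ENNReal.toReal_mono ENNReal.one_ne_top h2
  rw [ENNReal.toReal_mul, ENNReal.toReal_natCast, ENNReal.toReal_one] at h3
  rw [le_div_iff₀ (by positivity), mul_comm]
  exact_mod_cast h3

theorem not_isClosed : ¬ IsClosed {ν : {μ : ProbabilityMeasure C //
      ∀ g : Gam, (μ : Measure C).map (R.b g) = (μ : Measure C)} |
    ∀ s : Set C, MeasurableSet s → (∀ g : Gam, R.b g ⁻¹' s = s) →
      (ν.1 : Measure C) s = 0 ∨ (ν.1 : Measure C) s = 1} := by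
  intro hcl
  have hI : IsClosed {μ : ProbabilityMeasure C |
      ∀ g : Gam, (μ : Measure C).map (R.b g) = (μ : Measure C)} := by
    have : {μ : ProbabilityMeasure C |
        ∀ g : Gam, (μ : Measure C).map (R.b g) = (μ : Measure C)} = MK R.b univ := by
      ext μ
      refine ⟨fun h => ⟨fun g U hU => ?_, fun U _ hd => ?_⟩, fun h g => map_eq_of_mem h g⟩
      · conv_rhs => rw [← h g]
        rw [map_measureReal_apply (R.b g).continuous.measurable hU.isOpen.measurableSet]
      · rw [disjoint_univ.1 hd, measureReal_empty]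
    rw [this]
    exact isClosed_MK _ _
  have hcomp : CompactSpace {μ : ProbabilityMeasure C //
      ∀ g : Gam, (μ : Measure C).map (R.b g) = (μ : Measure C)} :=
    isCompact_iff_compactSpace.1 hI.isCompact
  let W : ℕ → Set {μ : ProbabilityMeasure C //
      ∀ g : Gam, (μ : Measure C).map (R.b g) = (μ : Measure C)} := fun n =>
    {ν | ∀ s : Set C, MeasurableSet s → (∀ g : Gam, R.b g ⁻¹' s = s) →
      (ν.1 : Measure C) s = 0 ∨ (ν.1 : Measure C) s = 1} ∩
    ({ν | (ν.1 : Measure C).real (R.B 0) = 1 / 2} ∩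
      {ν | (ν.1 : Measure C).real (R.D 0) ≤ 1 / ((n : ℝ) + 1)})
  have hW : ∀ n, IsClosed (W n) := fun n => hcl.inter
    ((isClosed_eq ((cont_real (R.clopen_B 0)).comp continuous_subtype_val) continuous_const).inter
      (isClosed_le ((cont_real (R.clopen_D 0)).comp continuous_subtype_val) continuous_const))
  have hne : ∀ n, (W n).Nonempty := by
    intro n
    obtain ⟨μ, hμ, herg⟩ := exists_erg R.b R.hmul folner (R.K_nonempty (Nat.succ_pos n))
      (R.K_inv (n + 1))
    exact ⟨⟨μ, map_eq_of_mem hμ⟩, herg, R.half hμ, R.small hμ⟩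
  obtain ⟨ν, hν⟩ := IsCompact.nonempty_iInter_of_sequence_nonempty_isCompact_isClosed W
    (fun n ν hν => ⟨hν.1, hν.2.1, by
      have h1 : (ν.1 : Measure C).real (R.D 0) ≤ 1 / (((n + 1 : ℕ) : ℝ) + 1) := hν.2.2
      have h2 : 1 / (((n + 1 : ℕ) : ℝ) + 1) ≤ 1 / ((n : ℝ) + 1) :=
        one_div_le_one_div_of_le (by positivity) (by push_cast; linarith)
      exact h1.trans h2⟩) hne (hW 0).isCompact hW
  rw [mem_iInter] at hν
  have hB : (ν.1 : Measure C).real (R.B 0) = 1 / 2 := (hν 0).2.1
  have hD0 : (ν.1 : Measure C).real (R.D 0) = 0 := by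
    refine le_antisymm (le_of_forall_pos_le_add fun ε hε => ?_) measureReal_nonneg
    obtain ⟨n, hn⟩ := exists_nat_one_div_lt hε
    have : (ν.1 : Measure C).real (R.D 0) ≤ 1 / ((n : ℝ) + 1) := (hν n).2.2
    linarith
  have hD : ∀ k, (ν.1 : Measure C) (R.D k) = 0 := by
    intro k
    rw [← R.pre_D, ← Measure.map_apply (R.b (T k)).continuous.measurable
      (R.clopen_D 0).isOpen.measurableSet, ν.2]
    exact (measureReal_eq_zero_iff (measure_ne_top _ _)).1 hD0
  have hE : MeasurableSet (⋂ k, R.B k) :=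
    MeasurableSet.iInter fun k => (R.clopen_B k).isOpen.measurableSet
  have hEinv : ∀ g : Gam, R.b g ⁻¹' (⋂ k, R.B k) = ⋂ k, R.B k := by
    intro g
    ext z
    simp only [B, mem_preimage, mem_iInter, mem_ofPred_eq, β_act]
    exact ⟨fun h k => by simpa using h (k - g.1.k), fun h k => h _⟩
  have hsub : R.B 0 ⊆ (⋂ k, R.B k) ∪ ⋃ k, R.D k := by
    intro z hz
    by_cases h : z ∈ ⋃ k, R.D k
    · exact Or.inr h
    · left
      simp only [D, mem_iUnion, mem_ofPred_eq, not_exists, not_not] at h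
      simp only [B, mem_iInter, mem_ofPred_eq]
      intro k
      induction k using Int.induction_on with
      | zero => exact hz
      | succ n ih => rw [← h]; exact ih
      | pred n ih => rw [h, sub_add_cancel]; exact ih
  rcases (hν 0).1 _ hE hEinv with h | h
  · have h1 : (ν.1 : Measure C) (R.B 0) = 0 :=
      measure_mono_null hsub (measure_union_null h (measure_iUnion_null hD))
    rw [measureReal_def, h1] at hB
    norm_num at hB
  · have h1 : (ν.1 : Measure C).real (⋂ k, R.B k) ≤ (ν.1 : Measure C).real (R.B 0) :=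
      measureReal_mono (iInter_subset _ 0)
    rw [measureReal_def, h, hB] at h1
    norm_num at h1

end Rules

end Pool.Agent.H159Z.Bauer
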