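import Mathlib
import Pool.Agent.H159Z.Bauer.Rigid

/-! The local rules hold on a nonempty open set of actions, and the space of actions is Baire. -/

set_option autoImplicit false

open MeasureTheory Set Filter Topology

namespace Pool.Agent.H159Z.Bauer

lemma isOpen_rule {ι h : C → A} (hι : Continuous ι) (hh : Continuous h) :
    IsOpen {f : C(C, C) | ∀ z, ι (f z) = h z} := by
  have : {f : C(C, C) | ∀ z, ι (f z) = h z} =
      ⋂ i : A, {f : C(C, C) | MapsTo f (h ⁻¹' {i}) (ι ⁻¹' {i})} := by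
    ext f
    simp only [mem_ofPred_eq, mem_iInter]
    exact ⟨fun H i z hz => (H z).trans hz, fun H z => H (h z) (x := z) rfl⟩
  rw [this]
  exact isOpen_iInter_of_finite fun i => ContinuousMap.isOpen_setOfPred_mapsTo
    ((isClosed_discrete _).preimage hh).isCompact ((isOpen_discrete _).preimage hι)

lemma cm_cmap (Y : Type) [TopologicalSpace Y] [CompactSpace Y]
    [TopologicalSpace.IsCompletelyMetrizableSpace Y] :
    TopologicalSpace.IsCompletelyPseudoMetrizableSpace C(Y, Y) := by
  letI := TopologicalSpace.upgradeIsCompletelyMetrizable Y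
  infer_instance

lemma baire_act (Γ : Type) [Group Γ] [Countable Γ] : BaireSpace {a : Γ → C(C, C) //
    a 1 = ContinuousMap.id C ∧ ∀ g h : Γ, a (g * h) = (a g).comp (a h)} := by
  have h1 : TopologicalSpace.IsCompletelyPseudoMetrizableSpace C(C, C) := cm_cmap C
  have h2 : IsClosed {a : Γ → C(C, C) |
      a 1 = ContinuousMap.id C ∧ ∀ g h : Γ, a (g * h) = (a g).comp (a h)} := by
    refine IsClosed.inter (isClosed_eq (continuous_apply 1) continuous_const) ?_
    change IsClosed {a : Γ → C(C, C) | ∀ g h : Γ, a (g * h) = (a g).comp (a h)}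
    simp only [ofPred_forall]
    refine isClosed_iInter fun g => isClosed_iInter fun h => isClosed_eq (continuous_apply _) ?_
    exact (continuous_apply g).compCM (continuous_apply h)
  have h3 := h2.isCompletelyPseudoMetrizableSpace
  exact BaireSpace.of_completelyPseudoMetrizable (X := {a : Γ → C(C, C) |
      a 1 = ContinuousMap.id C ∧ ∀ g h : Γ, a (g * h) = (a g).comp (a h)})

theorem main : ¬ ({a : {a : Gam → C(C, C) //
          a 1 = ContinuousMap.id C ∧ ∀ g h : Gam, a (g * h) = (a g).comp (a h)} |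
      IsClosed {ν : {μ : ProbabilityMeasure C //
                  ∀ g : Gam, (μ : Measure C).map (⇑(a.1 g)) = (μ : Measure C)} |
        ∀ s : Set C, MeasurableSet s → (∀ g : Gam, ⇑(a.1 g) ⁻¹' s = s) →
          (ν.1 : Measure C) s = 0 ∨ (ν.1 : Measure C) s = 1}} ∈ residual _) := by
  intro h
  have hB := baire_act Gam
  obtain ⟨a, ξ, ι, h1, hmul, cξ, cι, mark, hT, hS⟩ := exists_base
  have hU : IsOpen {b : {a : Gam → C(C, C) //
      a 1 = ContinuousMap.id C ∧ ∀ g h : Gam, a (g * h) = (a g).comp (a h)} |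
      (∀ z, ι (b.1 (T 1) z) = ι z) ∧ ∀ φ z, ι (b.1 (S 0 φ) z) = φ (ξ z) * ι z} := by
    have hc0 : ∀ g : Gam, Continuous fun b : {a : Gam → C(C, C) //
        a 1 = ContinuousMap.id C ∧ ∀ g h : Gam, a (g * h) = (a g).comp (a h)} => b.1 g :=
      fun g => (continuous_apply g).comp continuous_subtype_val
    have o1 : IsOpen {b : {a : Gam → C(C, C) //
        a 1 = ContinuousMap.id C ∧ ∀ g h : Gam, a (g * h) = (a g).comp (a h)} |
        ∀ z, ι (b.1 (T 1) z) = ι z} := (isOpen_rule cι cι).preimage (hc0 (T 1))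
    refine IsOpen.inter o1 ?_
    change IsOpen {b : {a : Gam → C(C, C) //
      a 1 = ContinuousMap.id C ∧ ∀ g h : Gam, a (g * h) = (a g).comp (a h)} |
      ∀ φ z, ι (b.1 (S 0 φ) z) = φ (ξ z) * ι z}
    rw [ofPred_forall]
    refine isOpen_iInter_of_finite fun φ => ?_
    have hc : Continuous fun z => φ (ξ z) * ι z :=
      (continuous_of_discreteTopology (f := fun q : L × A => φ q.1 * q.2)).comp (cξ.prodMk cι)
    exact (isOpen_rule cι hc).preimage (hc0 (S 0 φ))
  obtain ⟨b, hb1, hb2⟩ := (dense_of_mem_residual h).inter_open_nonempty _ hU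
    ⟨⟨a, h1, hmul⟩, hT, hS⟩
  exact Rules.not_isClosed ⟨b.1, ξ, ι, b.2.1, b.2.2, cξ, mark, hb1.1, hb1.2⟩ hb2

end Pool.Agent.H159Z.Bauer
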